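import Pool.Agent.helper87.X4.Spec

set_option autoImplicit false

namespace Pool.Agent.X4

open Matrix Pool.Agent.PL

private theorem M1_tr {N : ℕ} (W Y Y' : Matrix (Fin N) (Fin N) ℚ) :
    ((W * Y - Y * W) * Y').trace = (W * (Y * Y' - Y' * Y)).trace := by
  rw [sub_mul, trace_sub, mul_sub, trace_sub, Matrix.mul_assoc W Y Y', Matrix.mul_assoc Y W Y',
    trace_mul_comm Y (W * Y'), Matrix.mul_assoc W Y' Y]

theorem M1 (hDL : DL_stmt) (hGB : GB_stmt) (hND : ND_stmt) (hPH : PH_stmt) (hD2 : D2_stmt)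
    (hD4 : D4_stmt) (hHG : HG_stmt) : M1_stmt := by
  intro F _ _ N E D hc π hπ Z hZ
  obtain ⟨hπ1, hπ2, hπ3⟩ := hπ
  obtain ⟨hQ, h1E, hphi⟩ := hPH F N E D
  obtain ⟨_, gadd, gsmul, gbr⟩ := hGB F N E D
  have hZ2 : ∀ t ∈ D.Hodge D.base 2, der Z 2 t = 0 := fun t ht => hZ 2 t (Or.inl ⟨rfl, ht⟩)
  have hZ4 : der Z 4 (tau (D.Q D.base) π) = 0 := hZ 4 _ (Or.inr ⟨rfl, rfl⟩)
  obtain ⟨d1, d2⟩ := hD2 N (D.Q D.base) hQ
  have hZa : Zᵀ * D.Q D.base + D.Q D.base * Z = 0 := (d1 Z).1 (hZ2 _ (hphi 1 h1E))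
  have hZy : ∀ y ∈ EndH D, Z * y = y * Z := fun y hy => (d2 Z y hZa).1 (hZ2 _ (hphi y hy))
  have hZπ : ∀ Y, π (Z * Y - Y * Z) = Z * π Y - π Y * Z :=
    (hD4 N (D.Q D.base) hQ π Z hZa).1 hZ4
  have ga : ∀ Y ∈ gD D, Yᵀ * D.Q D.base + D.Q D.base * Y = 0 := fun Y hY =>
    (d1 Y).1 (hY 2 _ (hphi 1 h1E))
  have gy : ∀ Y ∈ gD D, ∀ y ∈ EndH D, Y * y = y * Y := fun Y hY y hy =>
    (d2 Y y (ga Y hY)).1 (hY 2 _ (hphi y hy))
  have gsub : ∀ X ∈ gD D, ∀ Y ∈ gD D, X - Y ∈ gD D := by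
    intro X hX Y hY
    have h := gadd X hX _ (gsmul (-1) Y hY)
    rwa [neg_one_smul, ← sub_eq_add_neg] at h
  have hZ1 := hπ1 Z
  have hza : (Z - π Z)ᵀ * D.Q D.base + D.Q D.base * (Z - π Z) = 0 := by
    have h := ga _ hZ1
    rw [transpose_sub, sub_mul, mul_sub, sub_add_sub_comm, hZa, h, sub_zero]
  have hzy : ∀ y ∈ EndH D, (Z - π Z) * y = y * (Z - π Z) := by
    intro y hy
    rw [sub_mul, mul_sub, hZy y hy, gy _ hZ1 y hy]
  have hzg : ∀ Y ∈ gD D, (Z - π Z) * Y = Y * (Z - π Z) := by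
    intro Y hY
    have e1 : Z * Y - Y * Z ∈ gD D := by
      have h := hZπ Y
      rw [hπ2 Y hY] at h
      rw [← h]
      exact hπ1 _
    have e2 : (Z - π Z) * Y - Y * (Z - π Z) ∈ gD D := by
      have h := gsub _ e1 _ (gbr _ hZ1 Y hY)
      have e : (Z - π Z) * Y - Y * (Z - π Z) = Z * Y - Y * Z - (π Z * Y - Y * π Z) := by
        rw [sub_mul, mul_sub]
        abel
      rw [e]
      exact h
    have e3 := hND F N E D _ e2 fun Y' hY' => by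
      have h := hπ3 Z _ (gbr Y hY Y' hY')
      have e : (((Z - π Z) * Y - Y * (Z - π Z)) * Y').trace =
          ((Z - π Z) * (Y * Y' - Y' * Y)).trace := M1_tr _ _ _
      rw [e]
      exact h
    exact sub_eq_zero.1 e3
  refine ⟨π Z, hZ1, Z - π Z, ⟨?_, hzy, hza⟩, by abel⟩
  exact (hHG N (D.h D.base) (hc D.base) (fun m => (D.Hodge D.base m : Set (Tn N m ℚ)))
    (fun m t ht => ht)).2 _ fun W hW => (hzg W hW).symm

end Pool.Agent.X4
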